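import Mathlib
import Pool.Agent.DPS.Final

/-!
Degree power sums of t-intersecting families (MP_d97b4e_co), squad DPF: all degree levels, by
averaged pushing and pulling. Definitions.

`ini n l` = the first `l` points; a family of k-sets is described by its traces on `ini n l`:
`fam k l 𝒯`. `Lam r θ F` = the sum over the r-sets `R` of `(degree F R - θ)_+ ^ 2`.
-/

namespace Pool.Agent.DPF

open Finset Pool.Agent.DPS

/-- The first `l` points. -/
def ini (n l : ℕ) : Finset (Fin n) := univ.filter fun x => x.val < l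

/-- `(x - θ)_+ ^ 2` -/
noncomputable def ph (θ x : ℝ) : ℝ := (max (x - θ) 0) ^ 2

/-- The sum over the r-sets of `(degree - θ)_+ ^ 2`. -/
noncomputable def Lam {n : ℕ} (r : ℕ) (θ : ℝ) (F : Finset (Finset (Fin n))) : ℝ :=
  ∑ R ∈ powersetCard r (univ : Finset (Fin n)), ph θ (degree F R : ℝ)

/-- The k-sets whose trace on the first `l` points belongs to `𝒯`. -/
def fam {n : ℕ} (k l : ℕ) (𝒯 : Finset (Finset (Fin n))) : Finset (Finset (Fin n)) :=
  (powersetCard k univ).filter fun K => K ∩ ini n l ∈ 𝒯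

/-- `𝒯` is a family of subsets of the first `l` points, closed upwards in them, and any two
members (equal or not) meet in at least `t` points. -/
structure Gd (n l t : ℕ) (𝒯 : Finset (Finset (Fin n))) : Prop where
  sub : ∀ E ∈ 𝒯, E ⊆ ini n l
  up : ∀ E ∈ 𝒯, ∀ E' : Finset (Fin n), E ⊆ E' → E' ⊆ ini n l → E' ∈ 𝒯
  int : ∀ E ∈ 𝒯, ∀ E' ∈ 𝒯, t ≤ (E ∩ E').card

/-- `𝒯` is closed under the shifts of the point `c` to the smaller points. -/
def Cl {n : ℕ} (c : Fin n) (𝒯 : Finset (Finset (Fin n))) : Prop :=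
  ∀ E ∈ 𝒯, c ∈ E → ∀ y : Fin n, y < c → y ∉ E → insert y (E.erase c) ∈ 𝒯

/-- The traces (on the points before `c`) that do not need `c`. -/
def AA {n : ℕ} (c : Fin n) (𝒯 : Finset (Finset (Fin n))) : Finset (Finset (Fin n)) :=
  𝒯.filter fun E => E ⊆ ini n c.val

/-- The traces (on the points before `c`) that need `c`. -/
def XX {n : ℕ} (c : Fin n) (𝒯 : Finset (Finset (Fin n))) : Finset (Finset (Fin n)) :=
  (ini n c.val).powerset.filter fun E => insert c E ∈ 𝒯 ∧ E ∉ 𝒯

/-- the number of k-sets with a given trace of size `e`, containing `b` given outer points; `ν` outer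
points -/
def mm (ν k b e : ℕ) : ℕ := if e + b ≤ k then (ν - b).choose (k - e - b) else 0

/-- The traces that are kept: `st e = 0`: all sets of size `e` are dropped; `st e = 1`: all are kept;
otherwise `E` is kept if `j ∉ E`. -/
def kp {n : ℕ} (st : ℕ → ℕ) (j : Fin n) (E : Finset (Fin n)) : Prop :=
  st E.card = 1 ∨ (2 ≤ st E.card ∧ j ∉ E)

open Classical in
/-- The kept members of `X`. -/
noncomputable def YY {n : ℕ} (st : ℕ → ℕ) (j : Fin n) (X : Finset (Finset (Fin n))) :
    Finset (Finset (Fin n)) := X.filter fun E => kp st j E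

/-- Closure upwards in the first `l` points. -/
def upc {n : ℕ} (l : ℕ) (𝒜 : Finset (Finset (Fin n))) : Finset (Finset (Fin n)) :=
  (ini n l).powerset.filter fun E => ∃ A ∈ 𝒜, A ⊆ E

/-- `s e = ν / (k - e)` -/
noncomputable def se (ν k e : ℕ) : ℝ := (ν : ℝ) / ((k : ℝ) - e)

/-- A random rule for the step from `L + 1` to `L` points: `N` modes with probabilities `w`, each mode
prescribes for every size: drop all (0), keep all (1), or keep `E` if `j ∉ E`, where `j` is uniform in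
the first `L` points. In every mode no conflict between the sizes `e` and `L + t - 1 - e`; every set
with mass is kept with probability at least `1 / s`. -/
structure Rl (k t L ν : ℕ) where
  N : ℕ
  w : Fin N → ℝ
  st : Fin N → ℕ → ℕ
  nonneg : ∀ i, 0 ≤ w i
  sum_one : ∑ i, w i = 1
  conf : ∀ i e e', e + e' = L + t - 1 → st i e = 0 ∨ st i e' = 0 ∨ (2 ≤ st i e ∧ 2 ≤ st i e')
  keep : ∀ e, t ≤ e → e + 1 ≤ L → e < k → k ≤ e + ν →
    1 ≤ se ν k e * ∑ i, w i *
      (if st i e = 0 then 0 else if st i e = 1 then 1 else ((L : ℝ) - e) / L)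

/-! ### The numbers of the inequality (T) -/

open Classical in
/-- the kept mass `H` -/
noncomputable def hh {n : ℕ} (st : ℕ → ℕ) (j : Fin n) (X : Finset (Finset (Fin n)))
    (m : Finset (Fin n) → ℝ) : ℝ := ∑ E ∈ X, if kp st j E then m E else 0

open Classical in
/-- the weighted kept mass `G = ∑ s_E m_E` -/
noncomputable def gg {n : ℕ} (ν k : ℕ) (st : ℕ → ℕ) (j : Fin n) (X : Finset (Finset (Fin n)))
    (m : Finset (Fin n) → ℝ) : ℝ := ∑ E ∈ X, if kp st j E then se ν k E.card * m E else 0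

open Classical in
/-- `g_y = ∑_{E ∋ y} m_E (s_E [kept] - 1)` -/
noncomputable def gy {n : ℕ} (ν k : ℕ) (st : ℕ → ℕ) (j : Fin n) (X : Finset (Finset (Fin n)))
    (m : Finset (Fin n) → ℝ) (y : Fin n) : ℝ :=
  ∑ E ∈ X, if y ∈ E then m E * ((if kp st j E then se ν k E.card else 0) - 1) else 0

open Classical in
/-- `∑_{E ∈ X} m_E (s_E [kept] - 1)` -/
noncomputable def gm {n : ℕ} (ν k : ℕ) (st : ℕ → ℕ) (j : Fin n) (X : Finset (Finset (Fin n)))
    (m : Finset (Fin n) → ℝ) : ℝ :=
  ∑ E ∈ X, m E * ((if kp st j E then se ν k E.card else 0) - 1)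

/-- The expectation over the rule. -/
noncomputable def ex {n k t L ν : ℕ} (ρ : Rl k t L ν) (f : Fin ρ.N → Fin n → ℝ) : ℝ :=
  ∑ i, ρ.w i * ((∑ j ∈ ini n L, f i j) / L)

/-- The inequality (T) for the rule `ρ`, a set `A`, a family `X` of supersets of `A` with masses `m`, and
`η`. -/
def TT {n k t L ν : ℕ} (ρ : Rl k t L ν) (A : Finset (Fin n)) (X : Finset (Finset (Fin n)))
    (m : Finset (Fin n) → ℝ) (η : ℝ) : Prop :=
  0 ≤ ex ρ (fun i j =>
    (∑ y ∈ ini n L \ A, ((max (η + gy ν k (ρ.st i) j X m y) 0) ^ 2 - η ^ 2)) / ((A.card : ℝ) + 1) +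
    (max (η - (∑ E ∈ X, m E - hh (ρ.st i) j X m)) 0) ^ 2 *
      (gg ν k (ρ.st i) j X m / hh (ρ.st i) j X m) - η ^ 2)

/-- The members of `X` that contain `A`. -/
def ov {n : ℕ} (X : Finset (Finset (Fin n))) (A : Finset (Fin n)) : Finset (Finset (Fin n)) :=
  X.filter fun E => A ⊆ E

/-- the sum of the masses of the members of `X` that contain `A`; `b` outer points, `ν` in total -/
noncomputable def sm {n : ℕ} (ν k b : ℕ) (X : Finset (Finset (Fin n))) (A : Finset (Fin n)) : ℝ :=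
  ∑ E ∈ ov X A, (mm ν k b E.card : ℝ)

/-- the weight `C(ν-1,b-1)`, and 0 for `b = 0` -/
def wl (ν b : ℕ) : ℕ := if b = 0 then 0 else (ν - 1).choose (b - 1)

/-- old degree of `A + B`, `c ∈ B`, `|B| = b` -/
noncomputable def d1 {n : ℕ} (c : Fin n) (𝒯 : Finset (Finset (Fin n))) (k b : ℕ)
    (A : Finset (Fin n)) : ℝ := sm (n - c.val) k b (AA c 𝒯) A + sm (n - c.val) k b (XX c 𝒯) A

/-- old degree of `A + B`, `c ∉ B`, `|B| = b` -/
noncomputable def d0 {n : ℕ} (c : Fin n) (𝒯 : Finset (Finset (Fin n))) (k b : ℕ)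
    (A : Finset (Fin n)) : ℝ := sm (n - c.val) k b (AA c 𝒯) A + sm (n - c.val) k (b + 1) (XX c 𝒯) A

/-- new degree of `A + B`, `|B| = b` -/
noncomputable def dn {n : ℕ} (c : Fin n) (𝒯 : Finset (Finset (Fin n))) (k b : ℕ) (st : ℕ → ℕ)
    (j : Fin n) (A : Finset (Fin n)) : ℝ :=
  sm (n - c.val) k b (AA c 𝒯) A + hh st j (ov (XX c 𝒯) A) (fun E => (mm (n - c.val) k b E.card : ℝ))

end Pool.Agent.DPF
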