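import Pool.Agent.DPF.Defs

/-!
Statements of the squad DPF (MP_d97b4e_co). THEOREM: for `n ≥ (t+1)(k-t+1)` the full t-star
maximizes `Lam r θ` (the sum of `(degree - θ)_+ ^ 2` over the r-sets) among the t-intersecting families
of k-sets, for ALL `r` and `θ`, provided the rule of RUL exists (`t ≥ 3`).

METHOD. `𝒯` = a family of traces on the first `L + 1` points, closed upwards, pairwise `t`-intersecting,
closed under the shifts of the last point `c` (`c.val = L`). `AA` = traces that do not need `c`,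
`XX` = traces that need `c`. Two members `E, E'` of `XX` with `|E ∩ E'| < t` satisfy
`|E| + |E'| = L + t - 1` and `E ∪ E' = ini n L`. So for the random rule `ρ` and `j ∈ ini n L` the family
`AA ∪ YY` is t-intersecting, it lives on the first `L` points, and the expectation of `Lam` does not
decrease (STP). So `L` can be lowered to `t`, where the family is contained in the star.

Every row is one statement `XStmt`; the docstring contains the complete proof. Theorem names: `x` in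
lower case, namespace `Pool.Agent.DPF.HNN`. `ν = n - L`, `b` = number of outer points.
-/

namespace Pool.Agent.DPF

open Finset Pool.Agent.DPS

/-! ### Counting -/

/-- CNT (60 lines). The number of k-sets `K` with `K ∩ ini n L = E` and `B ⊆ K` (`E ⊆ ini n L`, `B` disjoint
from `ini n L`, `|(ini n L)ᶜ| = n - L`): `K ↦ K \ (E ∪ B)` is a bijection with the subsets of
`(ini n L)ᶜ \ B` with `k - |E| - |B|` elements (none if `|E| + |B| > k`). -/
def CNTStmt : Prop :=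
  ∀ (n k L : ℕ) (E B : Finset (Fin n)), L ≤ n → E ⊆ ini n L → Disjoint B (ini n L) →
    ((powersetCard k (univ : Finset (Fin n))).filter
      fun K => K ∩ ini n L = E ∧ B ⊆ K).card = mm (n - L) k B.card E.card

/-- DGA (40 lines; uses CNT). Sort the members `K ⊇ A ∪ B` of `fam k L 𝒜` by the trace
`E = K ∩ ini n L ∈ 𝒜`, `E ⊇ A`. -/
def DGAStmt : Prop :=
  ∀ (n k L : ℕ) (𝒜 : Finset (Finset (Fin n))) (A B : Finset (Fin n)), L ≤ n →
    (∀ E ∈ 𝒜, E ⊆ ini n L) → A ⊆ ini n L → Disjoint B (ini n L) →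
    degree (fam k L 𝒜) (A ∪ B) = ∑ E ∈ ov 𝒜 A, mm (n - L) k B.card E.card

/-- DGB (80 lines; uses CNT). `c.val = L`, `ini n (L+1) = insert c (ini n L)`. A k-set `K` belongs to
`fam k (L+1) 𝒯` iff `K ∩ ini n L ∈ AA` or (`c ∈ K` and `K ∩ ini n L ∈ XX`) (`up`: `E ∈ AA` implies
`insert c E ∈ 𝒯`). For `E ∈ XX` count the `K ⊇ B ∪ {c}`: `B ∪ {c} = B` if `c ∈ B`, otherwise it has
`b + 1` elements. (`c ∉ ini n L`.) -/
def DGBStmt : Prop :=
  ∀ (n k t : ℕ) (c : Fin n) (𝒯 : Finset (Finset (Fin n))), Gd n (c.val + 1) t 𝒯 →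
    ∀ A B : Finset (Fin n), A ⊆ ini n c.val → Disjoint B (ini n c.val) →
    (degree (fam k (c.val + 1) 𝒯) (A ∪ B) : ℝ) =
      if c ∈ B then d1 c 𝒯 k B.card A else d0 c 𝒯 k B.card A

/-- SPL (60 lines). `R ↦ (R ∩ ini n c.val, R \ ini n c.val)` is a bijection; for a function of `A`, `|B|`
and `[c ∈ B]` there are `C(ν-1,b-1)` sets `B ⊆ (ini n c.val)ᶜ` with `|B| = b`, `c ∈ B` and `C(ν-1,b)` without
`c` (`ν = n - c.val = |(ini n c.val)ᶜ|`, `c ∉ ini n c.val`). -/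
def SPLStmt : Prop :=
  ∀ (n r : ℕ) (c : Fin n) (f g : ℕ → Finset (Fin n) → ℝ),
    ∑ R ∈ powersetCard r (univ : Finset (Fin n)),
        (if c ∈ R then f (R \ ini n c.val).card (R ∩ ini n c.val)
          else g (R \ ini n c.val).card (R ∩ ini n c.val)) =
      ∑ A ∈ (ini n c.val).powerset, if A.card ≤ r then
        (wl (n - c.val) (r - A.card) : ℝ) * f (r - A.card) A +
          ((n - c.val - 1).choose (r - A.card) : ℝ) * g (r - A.card) A else 0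

/-- SUM (60 lines; uses DGA DGB SPL). Both sides of the step. `R = A ∪ B`, `A = R ∩ ini n c.val`,
`B = R \ ini n c.val`, `c ∈ R` iff `c ∈ B`. In the second formula `f = g`; `dn` is the sum over
`ov (AA ∪ YY) A`, and `AA`, `XX` are disjoint. -/
def SUMStmt : Prop :=
  ∀ (n k t r : ℕ) (θ : ℝ) (c : Fin n) (𝒯 : Finset (Finset (Fin n))), Gd n (c.val + 1) t 𝒯 →
    Lam r θ (fam k (c.val + 1) 𝒯) = (∑ A ∈ (ini n c.val).powerset, if A.card ≤ r then
        (wl (n - c.val) (r - A.card) : ℝ) * ph θ (d1 c 𝒯 k (r - A.card) A) +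
          ((n - c.val - 1).choose (r - A.card) : ℝ) * ph θ (d0 c 𝒯 k (r - A.card) A) else 0) ∧
    ∀ (st : ℕ → ℕ) (j : Fin n),
      Lam r θ (fam k c.val (AA c 𝒯 ∪ YY st j (XX c 𝒯))) =
        ∑ A ∈ (ini n c.val).powerset, if A.card ≤ r then
          ((wl (n - c.val) (r - A.card) : ℝ) + ((n - c.val - 1).choose (r - A.card) : ℝ)) *
            ph θ (dn c 𝒯 k (r - A.card) st j A) else 0

/-- CMP (80 lines; uses DGB). Left compression: choose `B` with `|B| = b`, disjoint from `ini n c.val` and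
`c ∉ B` (`b + 1 ≤ n - c.val`). By DGB `d1 (b+1) (A - y)` is the degree of `(A - y) ∪ (B + c)` and `d0 b A`
that of `A ∪ B` in `F = fam k (c.val+1) 𝒯`. Injection: `K ↦ K` if `y ∈ K`, `K ↦ K - c + y` if `y ∉ K`
(`Cl`: the trace `E ∋ c` goes to `E - c + y ∈ 𝒯`); the images of the first kind contain `c`, those of the
second do not. -/
def CMPStmt : Prop :=
  ∀ (n k t b : ℕ) (c : Fin n) (𝒯 : Finset (Finset (Fin n))), Gd n (c.val + 1) t 𝒯 → Cl c 𝒯 →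
    b + 1 ≤ n - c.val → ∀ A : Finset (Fin n), A ⊆ ini n c.val → ∀ y ∈ A,
    d1 c 𝒯 k (b + 1) (A.erase y) ≤ d0 c 𝒯 k b A

/-! ### Conflicts -/

/-- CFL (80 lines). Let `L = c.val`. (1) `E ∈ XX`, `insert c E ∈ 𝒯`, so `t ≤ |E| + 1`. If `|E| = t - 1 < L`, take
`y ∈ ini n L \ E`; by `Cl`, `insert y E ∈ 𝒯`, and `(insert y E) ∩ (insert c E) = E` has `t - 1` elements:
contradiction. (2) `E ≠ ini n L` because `E ∉ 𝒯`. (3) `(insert c E) ∩ (insert c E') = insert c (E ∩ E')`, so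
`|E ∩ E'| = t - 1`; if `y ∈ ini n L` is in neither set then `insert y E ∈ 𝒯` and
`(insert y E) ∩ (insert c E') = E ∩ E'`: contradiction. So `E ∪ E' = ini n L`, and
`|E| + |E'| = |E ∪ E'| + |E ∩ E'|`. (4) Take `y ∈ E' \ E`: `insert y E ∈ 𝒯` and `up`.
(5) `c ∉ E` for `E ∈ AA`, so `E ∩ insert c E' = E ∩ E'`. -/
def CFLStmt : Prop :=
  ∀ (n t : ℕ) (c : Fin n) (𝒯 : Finset (Finset (Fin n))), 1 ≤ t → t ≤ c.val →
    Gd n (c.val + 1) t 𝒯 → Cl c 𝒯 →
    (∀ E ∈ XX c 𝒯, t ≤ E.card) ∧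
    (ini n c.val ∈ 𝒯 → ∀ E ∈ XX c 𝒯, E.card + 1 ≤ c.val) ∧
    (∀ E ∈ XX c 𝒯, ∀ E' ∈ XX c 𝒯, (E ∩ E').card < t →
      E.card + E'.card = c.val + t - 1 ∧ E ∪ E' = ini n c.val) ∧
    (∀ E ∈ XX c 𝒯, ∀ E' : Finset (Fin n), E ⊂ E' → E' ⊆ ini n c.val → E' ∈ AA c 𝒯) ∧
    (∀ E ∈ AA c 𝒯, ∀ E' ∈ AA c 𝒯 ∪ XX c 𝒯, t ≤ (E ∩ E').card)

/-- NEW (60 lines; uses CFL). The new traces. `up` and `sub` are clear for `upc`. `int`: members of `upc`
contain members `E, E'` of `AA ∪ YY`, so it is enough that `|E ∩ E'| ≥ t`: CFL (5) if one of them is in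
`AA`; if both are in `YY` and `|E ∩ E'| < t`, CFL (3) and `conf`: `st |E| = 0` or `st |E'| = 0` is
impossible for kept sets; if both are `≥ 2` then `j ∉ E`, `j ∉ E'`, but `j ∈ ini n L = E ∪ E'`. -/
def NEWStmt : Prop :=
  ∀ (n k t ν : ℕ) (c : Fin n) (𝒯 : Finset (Finset (Fin n))), 1 ≤ t → t ≤ c.val →
    Gd n (c.val + 1) t 𝒯 → Cl c 𝒯 → ∀ (ρ : Rl k t c.val ν) (i : Fin ρ.N) (j : Fin n),
    j ∈ ini n c.val → Gd n c.val t (upc c.val (AA c 𝒯 ∪ YY (ρ.st i) j (XX c 𝒯)))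

/-- INC (30 lines). Degrees are monotone, `ph θ` is monotone. The traces `E` of `𝒜` on `ini n l` belong to
`upc l 𝒜` if they are subsets of `ini n l`. -/
def INCStmt : Prop :=
  ∀ (n r : ℕ) (θ : ℝ),
    (∀ F F' : Finset (Finset (Fin n)), F ⊆ F' → Lam r θ F ≤ Lam r θ F') ∧
    ∀ (k l : ℕ) (𝒜 : Finset (Finset (Fin n))), fam k l 𝒜 ⊆ fam k l (upc l 𝒜)

/-! ### Real inequalities -/

/-- MNB (60 lines). Monotone in the base point. For `d = x' - x ≥ 0` the function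
`q y = ph θ (y + d) - ph θ y` satisfies `q y ≥ q x + c (y - x)` for all `y`, with
`c = 2 (max (x+d-θ) 0 - max (x-θ) 0) ≥ 0` (three cases for `x - θ`, three for `y - θ`: in `(-∞,-d]`, `[-d,0]`,
`[0,∞)`; `q` is convex). Put `y = x + g i`, multiply by `w i`, sum, and use `∑ w g ≥ 0`. -/
def MNBStmt : Prop :=
  ∀ (ι : Type) (s : Finset ι) (w g : ι → ℝ) (θ x x' : ℝ), (∀ i ∈ s, 0 ≤ w i) → ∑ i ∈ s, w i = 1 →
    0 ≤ ∑ i ∈ s, w i * g i → x ≤ x' →
    ∑ i ∈ s, w i * (ph θ (x + g i) - ph θ x) ≤ ∑ i ∈ s, w i * (ph θ (x' + g i) - ph θ x')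

/-- JNS (30 lines). `ph θ (x + g) ≥ ph θ x + 2 (max (x-θ) 0) g`, sum. -/
def JNSStmt : Prop :=
  ∀ (ι : Type) (s : Finset ι) (w g : ι → ℝ) (θ x : ℝ), (∀ i ∈ s, 0 ≤ w i) →
    0 ≤ ∑ i ∈ s, w i * g i → 0 ≤ ∑ i ∈ s, w i * (ph θ (x + g i) - ph θ x)

/-- SLP (40 lines). (1) Mean slopes of the convex function `ph θ` with the same right end point: with
`z = y - θ`, three cases `z ≤ 0`, `0 ≤ z ≤ d`, `d ≤ z ≤ H`, `H ≤ z`. (2) increments increase. (3) monotone. -/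
def SLPStmt : Prop :=
  ∀ (θ : ℝ), (∀ y d H : ℝ, 0 ≤ d → d ≤ H → 0 < H →
      d * ((ph θ y - ph θ (y - H)) / H) ≤ ph θ y - ph θ (y - d)) ∧
    (∀ x y d : ℝ, x ≤ y → 0 ≤ d → ph θ (x + d) - ph θ x ≤ ph θ (y + d) - ph θ y) ∧
    (∀ x y : ℝ, x ≤ y → ph θ x ≤ ph θ y)

/-- SEF (50 lines). The numbers. `mm ν k (b+1) e = mm ν k b e * (k-e-b)/(ν-b)` for `e + b ≤ k`, `b < ν`, so
`mm b - s mm (b+1) = (b/(ν-b)) (s-1) mm b`, `s = ν/(k-e)` (`e < k`). For `b = 0` and `e = k`: `mm 0 = 1`,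
`mm 1 = 0`, `se = 0` (the inequality is strict); for `e + b > k` all is 0. Second part: `mm = 0` if `b ≥ 1`
and (`k ≤ e` or `e + ν < k`), `b ≤ ν`. Third: `b C(ν-1,b) = (ν-b) C(ν-1,b-1)`. -/
def SEFStmt : Prop :=
  ∀ (ν k b e : ℕ),
    (b < ν → (mm ν k (b + 1) e : ℝ) * se ν k e +
      (b : ℝ) / ((ν : ℝ) - b) * (se ν k e - 1) * (mm ν k b e : ℝ) ≤ (mm ν k b e : ℝ)) ∧
    (1 ≤ b → b ≤ ν → (k ≤ e ∨ e + ν < k) → mm ν k b e = 0) ∧
    (b < ν → ((ν - 1).choose b : ℝ) * ((b : ℝ) / ((ν : ℝ) - b)) = (wl ν b : ℝ))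

/-- GAI (100 lines; uses SEF SLP). The gain at `c ∉ B`. Let `X = ov (XX c 𝒯) A`, `H = hh`, `G = gg` with the masses
`m_E = mm ν k b |E|`, `G1 = gm = ∑_{E ∈ X} mm ν k (b+1) |E| (s_E [kept] - 1)`, `G2 = (b/(ν-b)) (G - H)`. By SEF
(summed over the kept `E`): `dn ≥ d0 + G1 + G2`, and `G2 ≤ H` (because
`mm b - (b/(ν-b)) (s-1) mm b ≥ mm (b+1) s ≥ 0`), `G2 ≥ 0` (`s_E ≥ 1` if `m_E ≠ 0` and `b ≥ 1`: SEF (2)).
`ph(dn) - ph(d0+G1) ≥ ph(dn) - ph(dn-G2) ≥ G2 (ph(dn) - ph(dn-H))/H` (SLP (3), (1); `H = 0` gives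
`G2 = 0`), `dn - H = sm AA`. -/
def GAIStmt : Prop :=
  ∀ (n k b : ℕ) (θ : ℝ) (c : Fin n) (𝒯 : Finset (Finset (Fin n))) (st : ℕ → ℕ) (j : Fin n)
    (A : Finset (Fin n)), b < n - c.val →
    (ph θ (d0 c 𝒯 k b A + gm (n - c.val) k st j (ov (XX c 𝒯) A)
        (fun E => (mm (n - c.val) k (b + 1) E.card : ℝ))) - ph θ (d0 c 𝒯 k b A)) +
    (b : ℝ) / (((n - c.val : ℕ) : ℝ) - b) *
      ((gg (n - c.val) k st j (ov (XX c 𝒯) A) (fun E => (mm (n - c.val) k b E.card : ℝ)) -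
        hh st j (ov (XX c 𝒯) A) (fun E => (mm (n - c.val) k b E.card : ℝ))) *
      ((ph θ (dn c 𝒯 k b st j A) - ph θ (sm (n - c.val) k b (AA c 𝒯) A)) /
        hh st j (ov (XX c 𝒯) A) (fun E => (mm (n - c.val) k b E.card : ℝ)))) ≤
    ph θ (dn c 𝒯 k b st j A) - ph θ (d0 c 𝒯 k b A)

/-- EXT (150 lines; uses MNB). From (T) to all thresholds. `W = ∑ m`, `D = a0 + W`. Expectations: for
`E ∈ X` the probability of being kept is the bracket of `ρ.keep` (for `st ≥ 2` the fraction of the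
`j ∈ ini n L` outside `E ⊆ ini n L` is `(L - |E|)/L`), so `E G ≥ W` and `E g_y ≥ 0`. `G ≥ H` since `s_E ≥ 1`.
CASE `X = {A}`: all `gy = 0` (`y ∉ A`), reduce as below to `0 ≤ η ≤ m_A`, where (T2) is
`P s η^2 - η^2 ≥ 0`.
(a) `θ ≥ D`: `ph θ D = 0` and all other terms are `≥ 0`. (b) `a0 ≤ θ ≤ D`: put `η = D - θ ∈ [0,W]`;
`ph θ a0 = 0`, `ph θ (a0+H) = (max (η - (W-H)) 0)^2`, so the bracket is `(...)^2 G/H - η^2` (`H > 0`; if `H = 0`
both are `-η^2` because `η ≤ W`); this is TT. (c) `θ < a0`, `z = a0 - θ > 0`: the bracket is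
`(z+H)^2 - (z+W)^2 + (G-H)((z+H)^2 - z^2)/H = 2 z (G - W) + (G H - W^2)`, its expectation is at least that for
`z = 0` (`E G ≥ W`); the `y`-terms at `D` with `D - θ = z + W` are at least those with base `W` (MNB,
`E g_y ≥ 0`). So the total is at least TT with `η = W`. -/
def EXTStmt : Prop :=
  ∀ (n k t L : ℕ) (ρ : Rl k t L (n - L)) (A : Finset (Fin n)) (X : Finset (Finset (Fin n)))
    (m : Finset (Fin n) → ℝ), 1 ≤ L → L ≤ n → A ⊆ ini n L →
    (∀ E ∈ X, A ⊆ E ∧ E ⊆ ini n L ∧ t ≤ E.card ∧ E.card + 1 ≤ L ∧ E.card < k ∧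
      k ≤ E.card + (n - L)) → (∀ E ∈ X, 0 ≤ m E) →
    (X = {A} ∨ ((∀ E ∈ X, A ≠ E) ∧ ∀ η, 0 ≤ η → η ≤ ∑ E ∈ X, m E → TT ρ A X m η)) →
    ∀ θ a0 : ℝ,
      0 ≤ ex ρ (fun i j =>
        (∑ y ∈ ini n L \ A, (ph θ (a0 + ∑ E ∈ X, m E + gy (n - L) k (ρ.st i) j X m y) -
          ph θ (a0 + ∑ E ∈ X, m E))) / ((A.card : ℝ) + 1) +
        ((ph θ (a0 + hh (ρ.st i) j X m) - ph θ (a0 + ∑ E ∈ X, m E)) +
          (gg (n - L) k (ρ.st i) j X m - hh (ρ.st i) j X m) *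
            ((ph θ (a0 + hh (ρ.st i) j X m) - ph θ a0) / hh (ρ.st i) j X m)))

/-- RUL (the real inequality; the statement is the interface, its proof has its own rows). For
`t ≥ 3` and `n ≥ (t+1)(k-t+1)` there is a rule for which (T) holds for all `A`, all families `X` of proper
supersets of `A`, all nonnegative masses and `0 ≤ η ≤ ∑ m`. -/
def RULStmt (t : ℕ) : Prop :=
  ∀ (n k L : ℕ), t + 1 ≤ L → L + 1 ≤ n → t < k → (t + 1) * (k - t + 1) ≤ n →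
    ∃ ρ : Rl k t L (n - L), ∀ (A : Finset (Fin n)) (X : Finset (Finset (Fin n)))
      (m : Finset (Fin n) → ℝ), A ⊆ ini n L →
      (∀ E ∈ X, A ⊂ E ∧ E ⊆ ini n L ∧ t ≤ E.card ∧ E.card + 1 ≤ L ∧ E.card < k ∧
        k ≤ E.card + (n - L)) → (∀ E ∈ X, 0 ≤ m E) →
      ∀ η, 0 ≤ η → η ≤ ∑ E ∈ X, m E → TT ρ A X m η

/-- STP (250 lines; uses SUM CMP CFL MNB JNS SEF GAI EXT). THE STEP. Let `L = c.val`, `ν = n - L`, `b = r - |A|`,
`X A = ov (XX c 𝒯) A`. By SUM the claim is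
`0 ≤ ex ∑_A [wl ν b (ph dn - ph d1) + C(ν-1,b) (ph dn - ph d0)]`. By GAI and SEF (3) (`C(ν-1,b) b/(ν-b) = wl ν b`
for `b < ν`; for `b ≥ ν`, `C(ν-1,b) = 0`, and for `b = ν`: `wl = 1` but `G = H`, because `mm ν k ν e ≠ 0` only if
`e + ν = k`, and then `s = 1`; for `b > ν` both weights vanish) this is at least
`∑_{A, b ≥ 1} wl ν b * ex [ph dn - ph d1 + (G-H) slope] + ∑_A C(ν-1,b) ex [ph (d0 + G1) - ph d0]`.
The second sum: for `A = ∅` the term is `≥ 0` (JNS: `ex G1 ≥ 0` by `ρ.keep`; the masses `mm ν k (b+1) e` vanish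
unless `e < k ≤ e + ν`). For `A ≠ ∅` write it as `(1/|A|) ∑_{y ∈ A}`; by CMP and MNB
`ex [ph (d0 A b + G1) - ph (d0 A b)] ≥ ex [ph (D + g_y) - ph D]`, `D = d1 (b+1) (A - y)`, and
`G1 = gy` for the set `A - y`, masses `mm ν k (b+1)`, and the family `X (A - y)`: the `E ∈ X (A - y)` with
`y ∈ E` are exactly the `E ∈ X A`. Re-index `(A, b, y ∈ A)` by `(A' = A - y, b' = b + 1, y ∉ A')`: the weight is
`C(ν-1,b'-1) = wl ν b'`, `|A| = |A'| + 1`. So the total is at least `∑_{A', b' ≥ 1} wl ν b' *` (the left side of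
EXT for `A'`, the members of `X A'` with `e < k ≤ e + ν` (the others have mass 0: SEF (2)),
`m E = mm ν k b' |E|`, `a0 = sm AA A'`). EXT applies: if `A' ∈ X A'` then `X A' = {A'}` by CFL (4) (proper
supersets are in `AA`, not in `XX`); otherwise TT from the hypothesis. Sizes: CFL (1), (2). -/
def STPStmt : Prop :=
  ∀ (n k t r : ℕ) (θ : ℝ) (c : Fin n) (𝒯 : Finset (Finset (Fin n))), 1 ≤ t → t + 1 ≤ c.val →
    Gd n (c.val + 1) t 𝒯 → Cl c 𝒯 → ini n c.val ∈ 𝒯 → ∀ ρ : Rl k t c.val (n - c.val),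
    (∀ (A : Finset (Fin n)) (X : Finset (Finset (Fin n))) (m : Finset (Fin n) → ℝ),
      A ⊆ ini n c.val →
      (∀ E ∈ X, A ⊂ E ∧ E ⊆ ini n c.val ∧ t ≤ E.card ∧ E.card + 1 ≤ c.val ∧ E.card < k ∧
        k ≤ E.card + (n - c.val)) → (∀ E ∈ X, 0 ≤ m E) →
      ∀ η, 0 ≤ η → η ≤ ∑ E ∈ X, m E → TT ρ A X m η) →
    Lam r θ (fam k (c.val + 1) 𝒯) ≤
      ex ρ (fun i j => Lam r θ (fam k c.val (AA c 𝒯 ∪ YY (ρ.st i) j (XX c 𝒯))))

/-! ### Shifting and descent -/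

/-- SHU (80 lines). One shift on traces. `𝒯' = UV.compression {y} {c} 𝒯`, `y < c`, `c.val + 1 = l`
(`UV.mem_compression`). Closed upwards: standard (cases by membership of `y`, `c` in the larger set).
t-intersecting: for `E, E' ∈ 𝒯'`: both old: clear; both new: `E = F - c + y`, `E' = F' - c + y`, same size of
the intersection; `E` old, `E' = F' - c + y` new: if `|E ∩ E'| < t` then (as `|E ∩ F'| ≥ t`) `c ∈ E`, `y ∉ E`, so
`E - c + y ∈ 𝒯` (otherwise `E` would have moved), and `|(E - c + y) ∩ F'| = |E ∩ E'| < t`, contradiction.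
The number of members containing `c` does not increase, and it decreases if there is `E ∈ 𝒯` with
`c ∈ E`, `y ∉ E`, `E - c + y ∉ 𝒯`. -/
def SHUStmt : Prop :=
  ∀ (n t : ℕ) (c y : Fin n) (𝒯 : Finset (Finset (Fin n))), y < c → Gd n (c.val + 1) t 𝒯 →
    Gd n (c.val + 1) t (UV.compression {y} {c} 𝒯) ∧
    ((∃ E ∈ 𝒯, c ∈ E ∧ y ∉ E ∧ insert y (E.erase c) ∉ 𝒯) →
      ((UV.compression {y} {c} 𝒯).filter fun E => c ∈ E).card < (𝒯.filter fun E => c ∈ E).card)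

/-- SHL (120 lines). A shift does not decrease `Lam`. `F' = UV.compression {y} {c} F`. Degrees: for `R` with
`y, c ∈ R` or `y, c ∉ R`: unchanged (for `y, c ∉ R` the shift is an injection that keeps `⊇ R`; for
`y, c ∈ R` no set moves). For `R0` with `y, c ∉ R0`, `R1 = R0 + y`, `R2 = R0 + c`: let `z` = the number of
members `⊇ R0` containing `y` and `c`, and for `K ⊇ R0` without `y, c` look at `K + y`, `K + c`: afterwards
`d'(R1) - z` counts the `K` with at least one of the two in `F`, `d'(R2) - z` those with both. So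
`d'(R1) ≥ max(d(R1), d(R2))` and `d'(R1) + d'(R2) = d(R1) + d(R2)`, and `ph θ` is convex. Sum over the pairs
(`R ↦ R - y + c` is a bijection from the r-sets with `y ∈ R`, `c ∉ R`). -/
def SHLStmt : Prop :=
  ∀ (n r : ℕ) (θ : ℝ) (c y : Fin n) (F : Finset (Finset (Fin n))), y ≠ c →
    Lam r θ F ≤ Lam r θ (UV.compression {y} {c} F)

/-- SHF (50 lines). The shift commutes with `fam`: `y, c ∈ ini n l`, so the trace of `K - c + y` is the
shifted trace, and `K` moves iff its trace moves. -/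
def SHFStmt : Prop :=
  ∀ (n k l : ℕ) (c y : Fin n) (𝒯 : Finset (Finset (Fin n))), y ≠ c → c.val < l → y.val < l →
    fam k l (UV.compression {y} {c} 𝒯) = UV.compression {y} {c} (fam k l 𝒯)

/-- CLO (50 lines; uses SHU SHL SHF). Induction on the number of members of `𝒯` that contain `c`: if `Cl`
fails for `E`, `y`, apply the shift. -/
def CLOStmt : Prop :=
  ∀ (n k t r : ℕ) (θ : ℝ) (c : Fin n) (𝒯 : Finset (Finset (Fin n))), Gd n (c.val + 1) t 𝒯 →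
    ∃ 𝒯' : Finset (Finset (Fin n)), Gd n (c.val + 1) t 𝒯' ∧ Cl c 𝒯' ∧
      Lam r θ (fam k (c.val + 1) 𝒯) ≤ Lam r θ (fam k (c.val + 1) 𝒯')

/-- STE (120 lines; uses CLO CFL NEW INC STP). One step down. By CLO assume `Cl`. (a) `ini n L ∉ 𝒯`: then
`AA = ∅` (`up`) and `XX ⊆ {ini n L}` (CFL (4)), so `fam k (L+1) 𝒯 ⊆ fam k L {ini n L}`; take
`𝒯' = {ini n L}` (`|ini n L| = L ≥ t`). (b) `ini n L ∈ 𝒯` and `L = t`: `XX = ∅` by CFL (1), (2);
`fam k (L+1) 𝒯 ⊆ fam k L AA`, take `AA`. (c) `ini n L ∈ 𝒯`, `L ≥ t + 1`: RUL and STP; an expectation is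
at most the maximum (`w ≥ 0`, `∑ w = 1`, average over the `L` points `j`), so some `(i,j)` has
`Lam (fam k L (AA ∪ YY)) ≥ Lam (fam k (L+1) 𝒯)`; take `upc L (AA ∪ YY)` (NEW, INC). -/
def STEStmt : Prop :=
  ∀ (n k t r : ℕ) (θ : ℝ) (c : Fin n) (𝒯 : Finset (Finset (Fin n))), RULStmt t → 1 ≤ t →
    t ≤ c.val → t < k → (t + 1) * (k - t + 1) ≤ n → Gd n (c.val + 1) t 𝒯 →
    ∃ 𝒯' : Finset (Finset (Fin n)), Gd n c.val t 𝒯' ∧
      Lam r θ (fam k (c.val + 1) 𝒯) ≤ Lam r θ (fam k c.val 𝒯')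

/-- END (80 lines; uses INC). (1) `Gd n t t 𝒯`: a member `E ⊆ ini n t` has `|E| ≥ t` (`E = E'`), so
`E = ini n t` (`|ini n t| = t` as `t ≤ n`), and `fam k t 𝒯 ⊆ fullStar k (ini n t)`. (2) A permutation of
`Fin n` that maps `T` to `T'` (both of size `t`) maps the star of `T` to that of `T'` and permutes the
r-sets. (3) `A` t-intersecting: `upc n A` (here `ini n n = univ`) is `Gd n n t`, and `A ⊆ fam k n (upc n A)`. -/
def ENDStmt : Prop :=
  ∀ (n k t r : ℕ) (θ : ℝ), t ≤ n →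
    (∀ 𝒯 : Finset (Finset (Fin n)), Gd n t t 𝒯 → fam k t 𝒯 ⊆ fullStar k (ini n t)) ∧
    (∀ T T' : Finset (Fin n), T.card = T'.card →
      Lam r θ (fullStar k T) = Lam r θ (fullStar k T')) ∧
    (∀ A : Finset (Finset (Fin n)), A ⊆ powersetCard k univ → TInt t A →
      Gd n n t (upc n A) ∧ A ⊆ fam k n (upc n A))

/-- DSC (50 lines; uses STE END INC). Descent from `l = n` to `l = t` (`Nat.decreasingInduction` or
induction on `l - t`), then the star. -/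
def DSCStmt : Prop :=
  ∀ (n k t r : ℕ) (θ : ℝ), RULStmt t → 1 ≤ t → t < k → (t + 1) * (k - t + 1) ≤ n →
    ∀ A : Finset (Finset (Fin n)), A ⊆ powersetCard k univ → TInt t A →
    ∀ T : Finset (Fin n), T.card = t → Lam r θ A ≤ Lam r θ (fullStar k T)

end Pool.Agent.DPF
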