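import Pool.Agent.DPF.StmtsR

/-!
Statements of the squad DPF (MP_d97b4e_co), third part: the final inequality in `t`, `h = L - t + 1`,
`lam = L - a` and one real variable `X`. `L = h + t - 1`, `b = a + 1 = h + t - lam`.
Everything is proved by completing the square and by the polynomial lemmas of
Pool/Agent/Helper59_DPF/Poly.lean (compiled).
-/

namespace Pool.Agent.DPF

/-- `P = (b ω + lam - 1)/L` -/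
noncomputable def Pw (t h lam ω : ℝ) : ℝ := ((h + t - lam) * ω + (lam - 1)) / (h + t - 1)

/-- `R = (b ω^2 + lam - 1)/L` -/
noncomputable def Rw (t h lam ω : ℝ) : ℝ := ((h + t - lam) * ω ^ 2 + (lam - 1)) / (h + t - 1)

/-- `S = (t + 1) h/(2 L)` -/
noncomputable def Sw (t h : ℝ) : ℝ := (t + 1) * h / (2 * (h + t - 1))

/-- the lower bound of the first two squares: `(lam/b) (P + (S - P) X)^2/R` -/
noncomputable def YQ (t h lam ω X : ℝ) : ℝ :=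
  lam / (h + t - lam) * ((Pw t h lam ω + (Sw t h - Pw t h lam ω) * X) ^ 2 / Rw t h lam ω)

/-- FQ1 (150 lines). `lam - 1 ≥ N = h/2`. Put `b = h + t - lam`, `L = h + t - 1`, `μ = h + 1 - lam`, `κ = lam/(b R)`,
`q = S - P`, `σ` = the coefficient of `(1-X)_+^2`. Two facts for `X ≥ 0`, `σ > 0`, `κ, P, q ≥ 0`:
(Q1) `σ (1-X)_+^2 + κ (P + q X)^2 ≥ σ κ S^2/(σ + κ q^2)` (for `X ≤ 1` with `u = 1 - X`, `P + q X = S - q u`, the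
difference times `σ + κ q^2` is `((σ + κ q^2) u - κ q S)^2`; for `X ≥ 1`, `P + q X ≥ S`); (Q2) if `κ P q ≥ σ` then
`... ≥ σ + κ P^2` (for `X ≤ 1` the difference is `2 X (κ P q - σ) + X^2 (σ + κ q^2)`; `X ≥ 1`:
`κ (P + q)^2 ≥ κ P^2 + 2 κ P q`).
ALTERNATIVE `ω = 1`: `P = R = 1`, `κ = lam/b`, `q = (t-1)(h-2)/(2 L)`, so Q2 gives the claim if
`(t-1)(h-2) min(lam-1,h-1) ≥ (t+1) h b`, because `(L+1)/b = 1 + lam/b` and `σ ≥ 1`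
(`(t+1) h ≥ 2 L`, `lam ≥ min(lam-1, h-1)`).
CASE `μ ≥ 1` (`lam ≤ h`): `ω = μ/b`, `b ω + lam - 1 = h`, `P = h/L`, `R = Z/(b L)`,
`Z = μ^2 + (lam-1) b = h μ + (h-μ)(t-1)`, `q = (t-1) h/(2 L)`, and Q1 is
`(t+1)^3 h^2 lam/(L (4 (t+1) Z + 2 (t-1)^2 h (h-μ)))`. This is `≥ (L+1)/b` if `P1 ≥ 0`; by polyIa1 (`μ = 1`), polyIa2
(`μ ≥ 2`, `2 μ ≤ h`) `P1 + α P2 ≥ 0`, so `P1 < 0` gives `P2 > 0`, the alternative.
CASE `b ≤ t - 1` (`lam ≥ h + 1`): `ω = 0`: `P = R = (lam-1)/L`, `lam - 1 ≥ h`, and Q1 is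
`(t+1)^3 h^3 lam/(L (2 (h-1) ((t-1)(h-2) + 2 b)^2 + 4 b (lam-1)(t+1) h))` (`2 L q = (t-1)(h-2) + 2 b`); polyIc1
(`b = 1`), polyIc2 (`b ≥ 2`), the same way. -/
def FQ1Stmt : Prop :=
  ∀ (t h lam : ℕ), 3 ≤ t → 3 ≤ h → lam + 1 ≤ h + t → h + 2 ≤ 2 * lam →
    ∃ ω : ℝ, 0 ≤ ω ∧ ω ≤ 1 ∧ (h : ℝ) ≤ ((h : ℝ) + t - lam) * ω + ((lam : ℝ) - 1) ∧
      ∀ X : ℝ, 0 ≤ X → ((h : ℝ) + t) / ((h : ℝ) + t - lam) ≤
        (lam : ℝ) / ((h : ℝ) + t - 1) * (((t : ℝ) + 1) * h /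
          (2 * min ((lam : ℝ) - 1) ((h : ℝ) - 1))) * (max (1 - X) 0) ^ 2 + YQ t h lam ω X

/-- FQ2 (100 lines). `lam - 1 < N`, so `μ = h + 1 - lam ≥ lam`. `ω = μ/b` as in FQ1, Q1 (with
`σ = (t+1) h lam/(2 L μ)`) gives `(t+1)^3 lam h^2/4/(L ((t-1)^2 μ h/2 + (t+1) Z))`, and the claim is poly2 divided by
`L (...) μ b` (`h = μ + lam - 1`, `2 (N - lam + 1) = 2 μ - h = h - 2 (lam-1)`). -/
def FQ2Stmt : Prop :=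
  ∀ (t h lam : ℕ), 3 ≤ t → 3 ≤ h → 2 ≤ lam → 2 * lam ≤ h + 1 →
    ∃ ω : ℝ, 0 ≤ ω ∧ ω ≤ 1 ∧ (h : ℝ) ≤ ((h : ℝ) + t - lam) * ω + ((lam : ℝ) - 1) ∧
      ∀ X : ℝ, 0 ≤ X → ((h : ℝ) + t) / ((h : ℝ) + t - lam) ≤
        ((t : ℝ) + 1) * ((h : ℝ) - 2 * ((lam : ℝ) - 1)) / (2 * ((h : ℝ) + 1 - lam)) +
        (lam : ℝ) / ((h : ℝ) + t - 1) * (((t : ℝ) + 1) * h / (2 * ((h : ℝ) + 1 - lam))) *
          (max (1 - X) 0) ^ 2 + YQ t h lam ω X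

end Pool.Agent.DPF
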