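import Pool.Agent.DPF.StmtsF

/-!
Statements of the squad DPF (MP_d97b4e_co), fourth part: the rule `del` and the numeric problem `NumL` for
`t ≥ 3`, `L ≥ t + 2`, `2 k ≥ L + t + 1`, reduced to FQ1, FQ2. Notation in all the proofs:
`h = L - t + 1 ≥ 3`, `K = 2 k - L - t ≥ 1`, `ν = (t+1)(k-t+1) - L`, so
`2 ν = (t+1)(K+1) + (t-1)(h-2) > (t+1) K`, `lam = L - a ≥ 2`, `b = a + 1`, `d = dd t L e`, and for `t ≤ e ≤ L - 1`:
`d ≤ h - 2`; for `2 e ≤ L + t - 1` (small or middle): `d = L + t - 1 - 2 e`, `L - e = (h + d)/2`,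
`k - e = (K + 1 + d)/2`; for `2 e ≥ L + t - 1` (big): `d = 2 e - (L + t - 1)`, `L - e = (h - d)/2`,
`k - e = (K + 1 - d)/2`.
-/

namespace Pool.Agent.DPF

open Finset Pool.Agent.DPS

/-- The rule: `δ d = (t+1) K d/(2 ν (h + d))`. -/
noncomputable def del (k t L : ℕ) (d : ℕ) : ℝ :=
  ((t : ℝ) + 1) * (2 * (k : ℝ) - L - t) * d /
    (2 * (((t : ℝ) + 1) * ((k : ℝ) - t + 1) - L) * ((L : ℝ) - t + 1 + d))

/-- WTS (40 lines). Weights of the modes: `∑_{i < L} wt i [i < d] = δ d - δ 0` (telescope), and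
`∑_{i < L} wt i = 1`. -/
def WTSStmt : Prop :=
  ∀ (L : ℕ) (δ : ℕ → ℝ) (d : ℕ) (A B : ℝ), d + 1 ≤ L → δ 0 = 0 →
    ∑ i ∈ range L, wt L δ i * (if i < d then A else B) = δ d * A + (1 - δ d) * B

/-- STA (40 lines). The states: free sizes are always kept; for a size in conflict: `i < dd`: big kept, small
dropped; `dd ≤ i`: 2. (All by unfolding `sta`, `dd` and omega; `L + t - 1 + i < 2 e` iff `e` is big and `i < dd`.) -/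
def STAStmt : Prop :=
  ∀ (k t L i e : ℕ), 1 ≤ L → e < k →
    (k + e ≤ L + t - 1 → sta k t L i e = 1) ∧
    (L + t ≤ k + e → L + t - 1 < 2 * e →
      sta k t L i e = if i < dd t L e then 1 else 2) ∧
    (L + t ≤ k + e → 2 * e ≤ L + t - 1 →
      sta k t L i e = if i < dd t L e then 0 else 2)

/-- DEL (80 lines). `δ = del`: `0 < ν` (`2 ν ≥ (t+1)(K+1)`); `δ 0 = 0`; `d/(h+d)` is nondecreasing; `0 ≤ δ ≤ 1`
because `(t+1) K ≤ 2 ν` and `d ≤ h + d`. -/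
def DELStmt : Prop :=
  ∀ (k t L : ℕ), 3 ≤ t → t + 2 ≤ L → L + t + 1 ≤ 2 * k →
    0 < ((t : ℝ) + 1) * ((k : ℝ) - t + 1) - L ∧ del k t L 0 = 0 ∧
    (∀ i, del k t L i ≤ del k t L (i + 1)) ∧ (∀ i, 0 ≤ del k t L i) ∧ (∀ i, del k t L i ≤ 1)

/-- FAC (120 lines; uses DEL). The facts on `s_e = s0 k t L e = 2 ν/(2 (k - e))`.
(0) `0 < s_e`, and `s` is nondecreasing in `e < k`.
(1) big `e`: `s_e δ = (t+1) d/(h+d) * K/(K + 1 - d)`, and `d ≥ 1`, `K + 1 - d ≥ 2`.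
(2) all `e`: `s_e ≥ 2 ν/(K + 1 + d)`, so it is enough that
`2 ν (1 - δ)(h+d) ≥ (t+1) h (K+1+d)`, that is `2 ν (h+d) - (t+1) K d - (t+1) h (K+1+d) ≥ 0`. Insert `2 ν`: the left
side is `(t-1)(h-2)(h+d) - (t+1)(h-1) d = (t-3)(h^2 - 2 h - d) + 2 h (h - 2 - d) ≥ 0`, because `d ≤ h - 2` and
`h^2 - 2 h - d ≥ h^2 - 3 h + 2 ≥ 0`. -/
def FACStmt : Prop :=
  ∀ (k t L : ℕ), 3 ≤ t → t + 2 ≤ L → L + t + 1 ≤ 2 * k →
    (∀ e, e < k → 0 < s0 k t L e) ∧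
    (∀ e e', e ≤ e' → e' < k → s0 k t L e ≤ s0 k t L e') ∧
    (∀ e, t ≤ e → e + 1 ≤ L → e < k → L + t - 1 < 2 * e →
      ((t : ℝ) + 1) * (dd t L e) / ((L : ℝ) - t + 1 + dd t L e) ≤
        s0 k t L e * del k t L (dd t L e)) ∧
    (∀ e, t ≤ e → e + 1 ≤ L → e < k →
      ((t : ℝ) + 1) * ((L : ℝ) - t + 1) / ((L : ℝ) - t + 1 + dd t L e) ≤
        s0 k t L e * (1 - del k t L (dd t L e)))

/-- OKD (60 lines; uses DEL FAC). Big `e`: `s (δ + (1-δ)(h-d)/(2L)) ≥ (t+1)(2 L d + h (h-d))/(2 L (h+d)) ≥ 1`: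
`(t+1)(2 L d + h (h - d)) - 2 L (h+d) = d ((t+1)(2 L - h) - 2 L) + h ((t+1) h - 2 L)`, `h ≤ L`,
`(t+1) h - 2 L = (t-1)(h-2)` (`L = h + t - 1`). Small `e`: `s (1-δ)(h+d)/(2L) ≥ (t+1) h/(2 L) ≥ 1`. -/
def OKDStmt : Prop :=
  ∀ (k t L : ℕ), 3 ≤ t → t + 2 ≤ L → L + t + 1 ≤ 2 * k → Okd k t L (del k t L)

/-- COE (120 lines; uses WTS STA DEL FAC). The coefficient of one size. Assume
`h ≤ b ω + lam - 1 =: L P`, `0 ≤ ω`. Free size: the sum is `s_e P` (WTS with `A = B`), `s_e ≥ s_e (1 - δ) ≥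
(t+1) h/(h+d)`, `P ≥ h/L`, and `h^2/(h+d) ≥ h/2` (`d ≤ h`). Big size in conflict: the sum is
`s_e (δ P + (1-δ)(L-e)/L) ≥ (t+1)/(L (h+d)) * (d h + h (h-d)/2) = (t+1) h/(2 L)`
(`(lam-1)/L * (L-e)/(lam-1) = (L-e)/L`). Small or middle size in conflict:
`s_e (1-δ)(L-e)/L ≥ (t+1) h/(h+d) * (h+d)/(2 L) = (t+1) h/(2 L)`. -/
def COEStmt : Prop :=
  ∀ (k t L a : ℕ) (ω : ℝ), 3 ≤ t → t + 2 ≤ L → L + t + 1 ≤ 2 * k → a + 2 ≤ L → 0 ≤ ω →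
    (L : ℝ) - t + 1 ≤ ((a : ℝ) + 1) * ω + ((L : ℝ) - a - 1) →
    ∀ e, a < e → t ≤ e → e + 1 ≤ L → e < k →
      ((t : ℝ) + 1) * ((L : ℝ) - t + 1) / (2 * L) ≤
        ∑ i ∈ range L, wt L (del k t L) i *
          (((a : ℝ) + 1) / L * ω * (if sta k t L i e = 1 then s0 k t L e else 0) +
            ((L : ℝ) - a - 1) / L * (s0 k t L e * (if sta k t L i e = 0 then 0
              else if sta k t L i e = 1 then 1 else ((L : ℝ) - e) / ((L : ℝ) - a - 1))))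

/-- The hypotheses on the masses in `NumL`. -/
def Hm (k t L a : ℕ) (M : ℕ → ℝ) : Prop :=
  (∀ e, 0 ≤ M e) ∧ (∀ e, M e ≠ 0 → a < e ∧ t ≤ e ∧ e + 1 ≤ L ∧ e < k) ∧
    1 ≤ ∑ e ∈ range L, M e

/-- YPT (150 lines; uses WTS DEL COE). The first two squares. `p1 = b/L`, `p2 = (lam-1)/L`, `P = p1 ω + p2`,
`R = p1 ω^2 + p2 > 0`, `S = (t+1) h/(2 L)`, `X = ∑ x_e`, `u_i = 1 + gA_i`, `v_i = 1 + gN_i`, `w_i = wt i ≥ 0`, `∑ w_i = 1`.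
The right side is `(lam/b) ∑ w_i (p1 (max u_i 0)^2 + p2 (max v_i 0)^2)`. Let `M0 = ∑ w_i (p1 ω u_i + p2 v_i)`. By COE
(exchange the sums over `i` and `e`) `M0 = P + ∑_e x_e (c_e - P) ≥ P + (S - P) X ≥ 0` (`x_e ≥ 0`, `x_e = 0` unless
`M_e ≠ 0`; `P ≤ 1 ≤ S` as `ω ≤ 1` and `(t+1) h - 2 L = (t-1)(h-2)`). With `c = M0/R ≥ 0` use the tangents
`(max u 0)^2 ≥ 2 (ω c) u - (ω c)^2`, `(max v 0)^2 ≥ 2 c v - c^2`: the sum is
`≥ 2 c M0 - c^2 R = M0^2/R ≥ (P + (S-P) X)^2/R`. (`Pw, Rw, Sw` at `h = L - t + 1`, `lam = L - a` are `P, R, S`: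
`h + t - 1 = L`, `h + t - lam = b`.) -/
def YPTStmt : Prop :=
  ∀ (k t L a : ℕ) (M : ℕ → ℝ) (ω : ℝ), 3 ≤ t → t + 2 ≤ L → L + t + 1 ≤ 2 * k → a + 2 ≤ L →
    Hm k t L a M → 0 ≤ ω → ω ≤ 1 →
    (L : ℝ) - t + 1 ≤ ((a : ℝ) + 1) * ω + ((L : ℝ) - a - 1) →
    YQ t ((L : ℝ) - t + 1) ((L : ℝ) - a) ω (∑ e ∈ range L, xe L a M e) ≤
      ∑ i ∈ range L, wt L (del k t L) i *
        (((L : ℝ) - a) / L * (max (1 + gA L a (s0 k t L) (sta k t L i) M) 0) ^ 2 +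
          ((L : ℝ) - a) * ((L : ℝ) - a - 1) / (L * ((a : ℝ) + 1)) *
            (max (1 + gN L a (s0 k t L) (sta k t L i) M) 0) ^ 2)

/-- SPA (120 lines; uses WTS STA DEL FAC). The last two squares if `lam - 1 ≥ h/2`. Let `e0 = max (a+1) t`,
`f0 = L - e0 = min (lam - 1) (h - 1)`, so `2 f0 ≥ h`, `e0` is small or middle and `d0 = dd e0 = 2 f0 - h`. Some `M_e ≠ 0`, so
`e0 ≤ e < k`. Take `σ = s0 e0` (monotone, FAC). Drop the squares with `a/L`. For a mode `i ≥ d0` no size `e ≥ e0`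
with mass is dropped completely (`2 e + i < L + t - 1` would give `i < d0`), so `0 ≤ dB ≤ X = ∑ x_e` and
`(max (1 - dB) 0)^2 ≥ (max (1 - X) 0)^2`. The modes `i ≥ d0` have weight `1 - δ d0` (WTS), and
`σ (1 - δ d0) ≥ (t+1) h/(h + d0) = (t+1) h/(2 f0)` (FAC (2)). -/
def SPAStmt : Prop :=
  ∀ (k t L a : ℕ) (M : ℕ → ℝ), 3 ≤ t → t + 2 ≤ L → L + t + 1 ≤ 2 * k → a + 2 ≤ L →
    Hm k t L a M → L + 3 ≤ 2 * (L - a) + t →
    ∃ σ : ℝ, 0 ≤ σ ∧ (∀ e, M e ≠ 0 → σ ≤ s0 k t L e) ∧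
      ((L : ℝ) - a) / L * (((t : ℝ) + 1) * ((L : ℝ) - t + 1) /
          (2 * min ((L : ℝ) - a - 1) ((L : ℝ) - t))) *
          (max (1 - ∑ e ∈ range L, xe L a M e) 0) ^ 2 ≤
        ∑ i ∈ range L, wt L (del k t L) i *
          ((a : ℝ) / L * (σ * (max (1 - dA L (sta k t L i) M) 0) ^ 2) +
            ((L : ℝ) - a) / L * (σ * (max (1 - dB L a (sta k t L i) M) 0) ^ 2))

/-- SPB (120 lines; uses WTS STA DEL FAC). The last two squares if `lam - 1 < h/2`. Then `a + 1 > (L + t - 1)/2 ≥ t`, every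
size with mass is `≥ e0 = a + 1`, hence big, `d0 = dd e0 = h - 2 (lam - 1)`, `dd e ≥ d0`; `e0 < k`; no size with mass is
free if... (a free size is kept in all modes, which is only better: in all cases below `dB ≤ X`, and for `i < d0` all
sizes with mass are kept). `σ = s0 e0`. For `i < d0`: `sta = 1` for all sizes with mass, `dA = dB = 0`, the bracket is
`(a/L) σ + (lam/L) σ = σ`. For `i ≥ d0`: `dB ≤ X`, the bracket is `≥ (lam/L) σ (max (1-X) 0)^2`. Total: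
`δ(d0) σ + (1 - δ d0) σ (lam/L) (max (1-X) 0)^2`, and `σ δ ≥ (t+1) d0/(h+d0)`, `σ (1-δ) ≥ (t+1) h/(h+d0)` (FAC),
`h + d0 = 2 (h + 1 - lam)`. -/
def SPBStmt : Prop :=
  ∀ (k t L a : ℕ) (M : ℕ → ℝ), 3 ≤ t → t + 2 ≤ L → L + t + 1 ≤ 2 * k → a + 2 ≤ L →
    Hm k t L a M → 2 * (L - a) + t ≤ L + 2 →
    ∃ σ : ℝ, 0 ≤ σ ∧ (∀ e, M e ≠ 0 → σ ≤ s0 k t L e) ∧
      ((t : ℝ) + 1) * ((L : ℝ) - t + 1 - 2 * ((L : ℝ) - a - 1)) / (2 * ((a : ℝ) + 2 - t)) +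
        ((L : ℝ) - a) / L * (((t : ℝ) + 1) * ((L : ℝ) - t + 1) / (2 * ((a : ℝ) + 2 - t))) *
          (max (1 - ∑ e ∈ range L, xe L a M e) 0) ^ 2 ≤
        ∑ i ∈ range L, wt L (del k t L) i *
          ((a : ℝ) / L * (σ * (max (1 - dA L (sta k t L i) M) 0) ^ 2) +
            ((L : ℝ) - a) / L * (σ * (max (1 - dB L a (sta k t L i) M) 0) ^ 2))

/-- NMA (80 lines; uses OKD YPT SPA SPB FQ1 FQ2). `δ = del`, `σ` constant. `h = L + 1 - t`, `lam = L - a` as naturals in FQ1,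
FQ2; `h + t - 1 = L`, `h + t - lam = a + 1`, `(h : ℝ) - 1 = L - t`, `h + 1 - lam = a + 2 - t`. Case `h + 2 ≤ 2 lam`: FQ1 gives
`ω`, the claim is SPA + YPT; otherwise `2 lam ≤ h + 1`: FQ2, SPB + YPT. `X = ∑ x_e ≥ 0`. -/
def NMAStmt : Prop :=
  ∀ (k t L : ℕ), 3 ≤ t → t + 2 ≤ L → L + t + 1 ≤ 2 * k → NumL k t L

/-- FNA (20 lines; uses RED N1 NMA DSC). `t ≥ 3`: the star is the maximum of `Lam r θ` for `n ≥ (t+1)(k-t+1)`. -/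
def FNAStmt : Prop :=
  ∀ (n k t r : ℕ) (θ : ℝ), 3 ≤ t → t < k → (t + 1) * (k - t + 1) ≤ n →
    ∀ A : Finset (Finset (Fin n)), A ⊆ powersetCard k univ → TInt t A →
    ∀ T : Finset (Fin n), T.card = t → Lam r θ A ≤ Lam r θ (fullStar k T)

end Pool.Agent.DPF
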