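import Pool.Agent.DPF.Stmts

/-!
Statements of the squad DPF (MP_d97b4e_co), second part: the real inequality RUL, reduced to finitely
many real variables (one mass for every size).
-/

namespace Pool.Agent.DPF

open Finset Pool.Agent.DPS

/-- the mass of size `e`, seen from a point outside `A`: `x_e = M_e (e - a)/(L - a)` -/
noncomputable def xe (L a : ℕ) (M : ℕ → ℝ) (e : ℕ) : ℝ :=
  M e * (((e : ℝ) - a) / ((L : ℝ) - a))

/-- `∑ x_e (s_e [st e = 1] - 1)` -/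
noncomputable def gA (L a : ℕ) (s : ℕ → ℝ) (st : ℕ → ℕ) (M : ℕ → ℝ) : ℝ :=
  ∑ e ∈ range L, xe L a M e * ((if st e = 1 then s e else 0) - 1)

/-- `∑ x_e (s_e ([st e = 1] + [st e ≥ 2] (L-e)/(L-a-1)) - 1)` -/
noncomputable def gN (L a : ℕ) (s : ℕ → ℝ) (st : ℕ → ℕ) (M : ℕ → ℝ) : ℝ :=
  ∑ e ∈ range L, xe L a M e * (s e *
    (if st e = 0 then 0 else if st e = 1 then 1 else ((L : ℝ) - e) / ((L : ℝ) - a - 1)) - 1)

/-- `∑ M_e [st e ≠ 1]` -/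
noncomputable def dA (L : ℕ) (st : ℕ → ℕ) (M : ℕ → ℝ) : ℝ :=
  ∑ e ∈ range L, if st e = 1 then 0 else M e

/-- `∑ (M_e [st e = 0] + x_e [st e ≥ 2])` -/
noncomputable def dB (L a : ℕ) (st : ℕ → ℕ) (M : ℕ → ℝ) : ℝ :=
  ∑ e ∈ range L, if st e = 0 then M e else if st e = 1 then 0 else xe L a M e

/-- The four squares of one mode. -/
noncomputable def ph4 (L a : ℕ) (s : ℕ → ℝ) (st : ℕ → ℕ) (M : ℕ → ℝ) (σ η : ℝ) : ℝ :=
  ((L : ℝ) - a) / L * (max (η + gA L a s st M) 0) ^ 2 +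
    ((L : ℝ) - a) * ((L : ℝ) - a - 1) / (L * ((a : ℝ) + 1)) * (max (η + gN L a s st M) 0) ^ 2 +
    (a : ℝ) / L * (σ * (max (η - dA L st M) 0) ^ 2) +
    ((L : ℝ) - a) / L * (σ * (max (η - dB L a st M) 0) ^ 2)

/-- total mass of size `e` -/
noncomputable def Ms {n : ℕ} (X : Finset (Finset (Fin n))) (m : Finset (Fin n) → ℝ) (e : ℕ) : ℝ :=
  ∑ E ∈ X.filter (fun E => E.card = e), m E

/-- UNI (250 lines; strong seat). Aggregation by sizes. `λ = L - a`, `b = a + 1`, `f = L - e`, `W = ∑ m`. If `X = ∅`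
then `η = 0` and TT is `0 ≤ 0`. Otherwise `λ ≥ 2` (`A ⊂ E`, `|E| ≤ L - 1`). Fix the mode `i`, `st = ρ.st i`, and sum
over `j ∈ ini n L`.
(1) `j ∈ A`: all `E ∈ X` contain `j`, so `E` is kept iff `st |E| = 1`; `gy y = ∑_{E ∋ y} m_E (s_E [st=1] - 1)`, its
mean over the `λ` points `y ∉ A` is `gA` (each `E` has `e - a` points outside `A`); Jensen for `z ↦ (max z 0)^2`
(in the form `∑_{i∈S} (max z_i 0)^2 ≥ |S| (max (mean) 0)^2`, tangent `(max z 0)^2 ≥ 2 c z - c^2`, `c = max mean 0`)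
gives `∑_{y ∉ A} (η + gy)_+^2 ≥ λ (η + gA)_+^2`. (2) `j ∉ A`, `y = j`: `E ∋ j` is kept iff `st = 1`; again
`∑_{j ∉ A} (η + gy j)_+^2 ≥ λ (η + gA)_+^2`. Together (1), (2) have the factor
`(1/(b L)) (a λ + λ) = λ/L`. (3) `j ∉ A`, `y ∉ A`, `y ≠ j`: the mean over the `λ (λ-1)` pairs is `gN`: for `E` there
are `(e-a)(λ-1)` pairs with `y ∈ E`, and `(e-a) f` pairs with `y ∈ E`, `j ∉ E` (`f = L - e` points outside `E`, all
outside `A`). (4) second part of TT, `H = hh`, `G = gg ≥ σ H`: `j ∈ A`: `W - H = dA`; if `H > 0` then `G/H ≥ σ`, if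
`H = 0` then `dA = W ≥ η` and both sides vanish. `j ∉ A`: the same with
`W - H = ∑_E m_E ([st=0] + [st≥2][j ∈ E])`, mean over the `j ∉ A` = `dB`, Jensen. (5) The constants:
`-η^2 (λ/b + 1) = -η^2 (L+1)/b`. (`st ≥ 2` means neither 0 nor 1.) -/
def UNIStmt : Prop :=
  ∀ (n k t L : ℕ) (ρ : Rl k t L (n - L)) (A : Finset (Fin n)) (X : Finset (Finset (Fin n)))
    (m : Finset (Fin n) → ℝ) (η : ℝ) (σ : Fin ρ.N → ℝ), 1 ≤ L → L ≤ n → A ⊆ ini n L →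
    (∀ E ∈ X, A ⊂ E ∧ E ⊆ ini n L ∧ E.card + 1 ≤ L) → (∀ E ∈ X, 0 ≤ m E) → 0 ≤ η →
    η ≤ ∑ E ∈ X, m E → (∀ i, 0 ≤ σ i) →
    (∀ i, ∀ E ∈ X, 0 < m E → ρ.st i E.card ≠ 0 → σ i ≤ se (n - L) k E.card) →
    η ^ 2 * (((L : ℝ) + 1) / ((A.card : ℝ) + 1)) ≤
      ∑ i, ρ.w i * ph4 L A.card (se (n - L) k) (ρ.st i) (Ms X m) (σ i) η → TT ρ A X m η

/-! ### The rule -/

/-- `|2 e - (L + t - 1)|` -/
def dd (t L e : ℕ) : ℕ := (2 * e - (L + t - 1)) + ((L + t - 1) - 2 * e)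

/-- The state of the size `e` in mode `i`: dropped if `e ≥ k`; kept if the partner `L + t - 1 - e` is
`≥ k`; otherwise for `dd > i` kept if `e` is big and dropped if `e` is small, and `dd ≤ i`: the j-rule. -/
def sta (k t L i e : ℕ) : ℕ :=
  if k ≤ e then 0 else if k + e ≤ L + t - 1 then 1 else if L + t - 1 + i < 2 * e then 1
  else if 2 * e + i < L + t - 1 then 0 else 2

/-- The weights of the modes `0, …, L - 1`. -/
noncomputable def wt (L : ℕ) (δ : ℕ → ℝ) (i : ℕ) : ℝ := if i + 1 = L then 1 - δ i else δ (i + 1) - δ i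

/-- `s_e` at the threshold `n = (t+1)(k-t+1)`: `((t+1)(k-t+1) - L)/(k-e)` -/
noncomputable def s0 (k t L e : ℕ) : ℝ :=
  (((t : ℝ) + 1) * ((k : ℝ) - t + 1) - L) / ((k : ℝ) - e)

/-- The conditions for `δ`: the sizes in conflict are kept with probability at least `1/s`. -/
def Okd (k t L : ℕ) (δ : ℕ → ℝ) : Prop :=
  δ 0 = 0 ∧ (∀ i, δ i ≤ δ (i + 1)) ∧ (∀ i, δ i ≤ 1) ∧
    ∀ e, t ≤ e → e + 1 ≤ L → e < k → L + t ≤ k + e →
      (L + t - 1 < 2 * e →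
        1 ≤ s0 k t L e * (δ (dd t L e) + (1 - δ (dd t L e)) * (((L : ℝ) - e) / L))) ∧
      (2 * e ≤ L + t - 1 → 1 ≤ s0 k t L e * ((1 - δ (dd t L e)) * (((L : ℝ) - e) / L)))

/-- RCN (120 lines). The rule constructor. `N = L`, `w i = wt L δ i`, `st i = sta k t L i`. `∑ w = 1`: telescope,
`δ 0 = 0`. `conf`: `e + e' = L + t - 1`; if `e ≥ k` or `e' ≥ k` that one is dropped; otherwise neither is free
(`k + e ≤ L + t - 1` iff `e' ≥ k`), and `2 e > L + t - 1 + i` iff `2 e' + i < L + t - 1`. `keep`: free sizes: `se ≥ 1`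
(`k ≤ e + ν`, `e < k`); sizes in conflict: the modes `i < dd` have total weight `δ dd` (`dd ≤ L - 1`), so the sum
is the number in `Okd`; `se ν k e ≥ s0 k t L e` because `ν ≥ (t+1)(k-t+1) - L`. -/
def RCNStmt : Prop :=
  ∀ (k t L ν : ℕ) (δ : ℕ → ℝ), 1 ≤ t → t + 1 ≤ L → t < k → (t + 1) * (k - t + 1) ≤ ν + L →
    Okd k t L δ → ∃ ρ : Rl k t L ν, ρ.N = L ∧ ∀ i : Fin ρ.N,
      ρ.w i = wt L δ i.val ∧ ρ.st i = sta k t L i.val

/-- TRV (80 lines). No conflicts: `L + t ≥ 2 k`: keep all sizes `e < k`, drop the others (`N = 1`; one of two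
partners is `≥ k`). Then `H = W`, `g_y ≥ 0` and `G ≥ H` because `se ≥ 1`, and TT is clear (`H = 0` implies
`η = 0`). -/
def TRVStmt : Prop :=
  ∀ (n k t L : ℕ), t + 1 ≤ L → L + 1 ≤ n → 2 * k ≤ L + t →
    ∃ ρ : Rl k t L (n - L), ∀ (A : Finset (Fin n)) (X : Finset (Finset (Fin n)))
      (m : Finset (Fin n) → ℝ), A ⊆ ini n L →
      (∀ E ∈ X, A ⊂ E ∧ E ⊆ ini n L ∧ t ≤ E.card ∧ E.card + 1 ≤ L ∧ E.card < k ∧
        k ≤ E.card + (n - L)) → (∀ E ∈ X, 0 ≤ m E) →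
      ∀ η, 0 ≤ η → η ≤ ∑ E ∈ X, m E → TT ρ A X m η

/-- The inequality in the masses of the sizes, for `δ`, `a`, `M`, and lower bounds `σ i` of `s_e`. -/
def NumIneq (k t L : ℕ) (δ : ℕ → ℝ) (a : ℕ) (M : ℕ → ℝ) : Prop :=
  ∃ σ : ℕ → ℝ, (∀ i, 0 ≤ σ i) ∧
    (∀ i < L, ∀ e, M e ≠ 0 → sta k t L i e ≠ 0 → σ i ≤ s0 k t L e) ∧
    ((L : ℝ) + 1) / ((a : ℝ) + 1) ≤
      ∑ i ∈ range L, wt L δ i * ph4 L a (s0 k t L) (sta k t L i) M (σ i) 1

/-- The numeric problem for one `L` (the target of the rows N1, NS, NM). -/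
def NumL (k t L : ℕ) : Prop :=
  ∃ δ : ℕ → ℝ, Okd k t L δ ∧ ∀ (a : ℕ) (M : ℕ → ℝ), a + 2 ≤ L → (∀ e, 0 ≤ M e) →
    (∀ e, M e ≠ 0 → a < e ∧ t ≤ e ∧ e + 1 ≤ L ∧ e < k) → 1 ≤ ∑ e ∈ range L, M e →
    NumIneq k t L δ a M

/-- RED (150 lines; uses UNI RCN TRV). If `2 k ≤ L + t`: TRV. Otherwise take `δ` from the hypothesis and `ρ`
from RCN. TT: `η = 0`: all terms are `≥ 0` (`G/H ≥ 0`). `η > 0`: replace `m` by `m/η` and `η` by 1 (TT is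
homogeneous of degree 2; `G/H` is invariant). Use UNI: `M = Ms X m`, `M e ≠ 0` iff some `E ∈ X` of size `e` has
`m E > 0`; `∑_{e<L} M e = ∑ m`; `σ` from NumIneq, `s0 ≤ se` for `e < k`; `gA`, `gN` are monotone in `s` (`x_e ≥ 0`,
`L - a - 1 > 0`), so `ph4` is monotone in `s`. (`X` nonempty gives `a + 2 ≤ L`.) -/
def REDStmt : Prop :=
  ∀ t : ℕ, 1 ≤ t → (∀ k L : ℕ, t < k → t + 1 ≤ L → L + t + 1 ≤ 2 * k → NumL k t L) → RULStmt t

/-- N1 (100 lines). `L = t + 1`: `δ = 0`, only the size `e = t` has mass, `M_t = W ≥ 1`, `s0 k t L t = t + 1 = L`. The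
j-rule: `sta = 2` in all modes (`dd = 0`), only the mode `i = L - 1` has weight (1). `σ i = L`. With `λ = L - a ≥ 2`, `b = a + 1 = L + 1 - λ`, `x = W (λ-1)/λ ≥ (λ-1)/λ`: `gA = -x`,
`gN = x (L/(λ-1) - 1)`, `dB = x`. CLAIM
`((L+1) λ/L) (1-x)_+^2 + (λ (λ-1)/(L b)) (1 - x + L x/(λ-1))^2 ≥ (L+1)/b`. Put `x = (λ-1)/λ + z`, `z ≥ 0`. For
`x ≤ 1` (`z ≤ 1/λ`) the left side minus the right side is
`((L+1) λ/L) (z^2 - 2 z/λ) + (λ(λ-1)/(L b)) (2 ((L+1)/λ) β z + β^2 z^2)`, `β = (L+1-λ)/(λ-1) = b/(λ-1)`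
(the constant terms cancel), the coefficient of `z` is
`-2 (L+1)/L + 2 (L+1)/L = 0`, and the coefficient of `z^2` is `≥ 0`. For `x ≥ 1` the second term alone is
increasing in `x`, so it is at least its value at `x = 1`, where the claim holds by the first case. -/
def N1Stmt : Prop := ∀ k t : ℕ, 1 ≤ t → t < k → NumL k t (t + 1)

end Pool.Agent.DPF
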